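import Pool.Agent.Q31.GLV.Stm

/-!
# Project GLV (MP_2f8bd9_al), job SP

The maps which are the identity on a large subspace `W` and on `V / W` are products of six maps
`1 + δ` with `δ` good.
-/

set_option autoImplicit false

namespace Pool.Agent.Q285.GLV

open Pool.Agent.Q31.GLV Module Cardinal Submodule

section
variable {F V : Type} [Field F] [AddCommGroup V] [Module F V]

lemma ex_equiv (δ : V →ₗ[F] V) (h : ∀ v, δ (δ v) = 0) :
    ∃ s : V ≃ₗ[F] V, ∀ v, s v = v + δ v := by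
  refine ⟨LinearEquiv.ofLinearMap (LinearMap.id + δ) (LinearMap.id - δ) ?_ ?_, fun v => ?_⟩
  · ext v; simp [h]
  · ext v; simp [h]
  · simp

/-- the configuration: `W` large, three coordinates `p`, `q`, `r` of `V / W` with sections -/
structure Co (W : Submodule F V) (p q r a b c : V →ₗ[F] V) : Prop where
  pW : ∀ w ∈ W, p w = 0
  qW : ∀ w ∈ W, q w = 0
  rW : ∀ w ∈ W, r w = 0
  pa : ∀ v, p (a v) = v
  qa : ∀ v, q (a v) = 0
  ra : ∀ v, r (a v) = 0
  pb : ∀ v, p (b v) = 0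
  qb : ∀ v, q (b v) = v
  rb : ∀ v, r (b v) = 0
  pc : ∀ v, p (c v) = 0
  qc : ∀ v, q (c v) = 0
  rc : ∀ v, r (c v) = v

lemma Co.rot {W : Submodule F V} {p q r a b c : V →ₗ[F] V} (h : Co W p q r a b c) :
    Co W q r p b c a :=
  ⟨h.qW, h.rW, h.pW, h.qb, h.rb, h.pb, h.qc, h.rc, h.pc, h.qa, h.ra, h.pa⟩

lemma good_of {W : Submodule F V} (hW : Module.rank F W = Module.rank F V)
    {p q r a b c : V →ₗ[F] V} (h : Co W p q r a b c) (ω σ : V →ₗ[F] V)
    (hω : LinearMap.range ω = W) (hσ : ∀ v, σ v ∈ W) :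
    Good (σ ∘ₗ p + ω ∘ₗ q) := by
  have hωW : ∀ v, ω v ∈ W := fun v => hω ▸ LinearMap.mem_range_self ω v
  have hmem : ∀ v, (σ ∘ₗ p + ω ∘ₗ q) v ∈ W := fun v => W.add_mem (hσ _) (hωW _)
  have hr : LinearMap.range (σ ∘ₗ p + ω ∘ₗ q) = W := by
    apply le_antisymm
    · rintro _ ⟨v, rfl⟩
      exact hmem v
    · intro w hw
      rw [← hω] at hw
      obtain ⟨y, rfl⟩ := hw
      exact ⟨b y, by simp [h.pb, h.qb]⟩
  have hci : Function.Injective c := fun x y hxy => by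
    rw [← h.rc x, ← h.rc y, hxy]
  refine ⟨fun v => ?_, ?_, LinearMap.range c, ?_, ?_, ?_⟩
  · have h1 := hmem v
    change σ (p _) + ω (q _) = 0
    rw [h.pW _ h1, h.qW _ h1, map_zero, map_zero, add_zero]
  · rw [hr, hW]
  · rintro _ ⟨v, rfl⟩
    change σ (p _) + ω (q _) = 0
    rw [h.pc, h.qc, map_zero, map_zero, add_zero]
  · rw [hr, Submodule.disjoint_def]
    rintro _ ⟨v, rfl⟩ hv
    have h1 := h.rW _ hv
    rw [h.rc] at h1
    rw [h1, map_zero]
  · exact (LinearEquiv.ofInjective c hci).rank_eq.symm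

lemma mem_of {W : Submodule F V} (hW : Module.rank F W = Module.rank F V)
    {p q r a b c : V →ₗ[F] V} (h : Co W p q r a b c) (ω σ : V →ₗ[F] V)
    (hω : LinearMap.range ω = W) (hσ : ∀ v, σ v ∈ W) (S : Subgroup (V ≃ₗ[F] V))
    (hS : ∀ (s : V ≃ₗ[F] V) (δ : V →ₗ[F] V), Good δ → (∀ v, s v = v + δ v) → s ∈ S)
    (s : V ≃ₗ[F] V) (hs : ∀ v, s v = v + σ (p v)) : s ∈ S := by
  have hωW : ∀ v, ω v ∈ W := fun v => hω ▸ LinearMap.mem_range_self ω v
  have g1 : Good (σ ∘ₗ p + ω ∘ₗ q) := good_of hW h ω σ hω hσ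
  have g2 : Good ((0 : V →ₗ[F] V) ∘ₗ p + (-ω) ∘ₗ q) :=
    good_of hW h (-ω) 0 (by rw [LinearMap.range_neg, hω]) (fun v => by simp)
  obtain ⟨s1, h1⟩ := ex_equiv _ g1.1
  obtain ⟨s2, h2⟩ := ex_equiv _ g2.1
  have e : s = s1 * s2 := by
    ext v
    change s v = s1 (s2 v)
    rw [h1, h2, hs]
    have h3 : ((0 : V →ₗ[F] V) ∘ₗ p + (-ω) ∘ₗ q) v = -ω (q v) := by simp
    rw [h3]
    have h4 : -ω (q v) ∈ W := W.neg_mem (hωW _)
    change _ = v + -ω (q v) + (σ (p (v + -ω (q v))) + ω (q (v + -ω (q v))))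
    rw [map_add p, map_add q, h.pW _ h4, h.qW _ h4]
    simp only [add_zero]
    abel
  rw [e]
  exact S.mul_mem (hS s1 _ g1 h1) (hS s2 _ g2 h2)

end

theorem t_SP : S_SP := by
  intro F V _ _ _ hV S hS W hW t ht
  obtain ⟨hW1, hW2⟩ := hW
  obtain ⟨ht1, ht2⟩ := ht
  obtain ⟨ω0⟩ := nonempty_linearEquiv_of_rank_eq hW1.symm
  have hω : LinearMap.range (W.subtype ∘ₗ (ω0 : V →ₗ[F] W)) = W := by
    rw [LinearMap.range_comp, LinearEquiv.range, Submodule.map_top, Submodule.range_subtype]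
  have h3 : Module.rank F (V ⧸ W) = Module.rank F (V × V × V) := by
    rw [hW2, rank_prod', rank_prod', Cardinal.add_eq_self hV, Cardinal.add_eq_self hV]
  obtain ⟨ψ⟩ := nonempty_linearEquiv_of_rank_eq h3
  set P : V →ₗ[F] V × V × V := (ψ : (V ⧸ W) →ₗ[F] V × V × V) ∘ₗ W.mkQ with hP
  have hsur : Function.Surjective P := ψ.surjective.comp W.mkQ_surjective
  have hker : ∀ v, P v = 0 ↔ v ∈ W := by
    intro v
    rw [hP]
    simp
  obtain ⟨k, hk⟩ := LinearMap.exists_rightInverse_of_surjective P (LinearMap.range_eq_top.2 hsur)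
  have hk' : ∀ x, P (k x) = x := fun x => by
    have := LinearMap.congr_fun hk x
    simpa using this
  let p : V →ₗ[F] V := LinearMap.fst F V (V × V) ∘ₗ P
  let q : V →ₗ[F] V := LinearMap.fst F V V ∘ₗ LinearMap.snd F V (V × V) ∘ₗ P
  let r : V →ₗ[F] V := LinearMap.snd F V V ∘ₗ LinearMap.snd F V (V × V) ∘ₗ P
  let a : V →ₗ[F] V := k ∘ₗ LinearMap.inl F V (V × V)
  let b : V →ₗ[F] V := k ∘ₗ LinearMap.inr F V (V × V) ∘ₗ LinearMap.inl F V V
  let c : V →ₗ[F] V := k ∘ₗ LinearMap.inr F V (V × V) ∘ₗ LinearMap.inr F V V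
  have hco : Co W p q r a b c := by
    refine ⟨fun w hw => ?_, fun w hw => ?_, fun w hw => ?_, fun v => ?_, fun v => ?_, fun v => ?_,
      fun v => ?_, fun v => ?_, fun v => ?_, fun v => ?_, fun v => ?_, fun v => ?_⟩
    · simp [p, (hker w).2 hw]
    · simp [q, (hker w).2 hw]
    · simp [r, (hker w).2 hw]
    all_goals simp [p, q, r, a, b, c, hk']
  let τ : V →ₗ[F] V := (t : V →ₗ[F] V) - LinearMap.id
  have hτ : ∀ v, τ v = t v - v := fun v => by simp [τ]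
  have hτW : ∀ v, τ v ∈ W := fun v => by rw [hτ]; exact ht2 v
  have hdec : ∀ v, τ v = τ (a (p v)) + τ (b (q v)) + τ (c (r v)) := by
    intro v
    have h4 : v - k (P v) ∈ W := by
      rw [← hker, map_sub, hk', sub_self]
    have h5 : τ (v - k (P v)) = 0 := by rw [hτ, ht1 _ h4, sub_self]
    have h6 : k (P v) = a (p v) + b (q v) + c (r v) := by
      have : P v = LinearMap.inl F V (V × V) (p v) +
          LinearMap.inr F V (V × V) (LinearMap.inl F V V (q v)) +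
          LinearMap.inr F V (V × V) (LinearMap.inr F V V (r v)) := by
        simp [p, q, r]
      rw [this, map_add, map_add]
      rfl
    rw [map_sub, sub_eq_zero] at h5
    rw [h5, h6, map_add, map_add]
  have hsq : ∀ (x y : V →ₗ[F] V), (∀ w ∈ W, y w = 0) → ∀ v,
      (τ ∘ₗ x ∘ₗ y) ((τ ∘ₗ x ∘ₗ y) v) = 0 := by
    intro x y hy v
    change τ (x (y (τ _))) = 0
    rw [hy _ (hτW _), map_zero, map_zero]
  obtain ⟨s1, h1⟩ := ex_equiv (τ ∘ₗ a ∘ₗ p) (hsq a p hco.pW)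
  obtain ⟨s2, h2⟩ := ex_equiv (τ ∘ₗ b ∘ₗ q) (hsq b q hco.qW)
  obtain ⟨s3, h3'⟩ := ex_equiv (τ ∘ₗ c ∘ₗ r) (hsq c r hco.rW)
  have m1 : s1 ∈ S := mem_of hW1 hco _ (τ ∘ₗ a) hω (fun v => hτW _) S hS s1 h1
  have m2 : s2 ∈ S := mem_of hW1 hco.rot _ (τ ∘ₗ b) hω (fun v => hτW _) S hS s2 h2
  have m3 : s3 ∈ S := mem_of hW1 hco.rot.rot _ (τ ∘ₗ c) hω (fun v => hτW _) S hS s3 h3'
  have e : t = s1 * s2 * s3 := by
    ext v
    change t v = s1 (s2 (s3 v))
    have e3 : s3 v = v + τ (c (r v)) := h3' v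
    have e2 : s2 (s3 v) = v + τ (c (r v)) + τ (b (q v)) := by
      rw [h2, e3]
      change _ + τ (b (q (v + τ (c (r v))))) = _
      rw [map_add q, hco.qW _ (hτW _), add_zero]
    have hm : τ (c (r v)) + τ (b (q v)) ∈ W := W.add_mem (hτW _) (hτW _)
    have e1 : s1 (s2 (s3 v)) = v + τ (c (r v)) + τ (b (q v)) + τ (a (p v)) := by
      rw [h1, e2]
      change _ + τ (a (p (v + τ (c (r v)) + τ (b (q v))))) = _
      rw [add_assoc v, map_add p, hco.pW _ hm, add_zero]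
    rw [e1]
    have h7 := hdec v
    rw [hτ] at h7
    have h8 : t v = v + (t v - v) := by abel
    rw [h8, h7]
    abel
  rw [e]
  exact S.mul_mem (S.mul_mem m1 m2) m3

end Pool.Agent.Q285.GLV
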